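import Mathlib

namespace Pool.Agent.Results.MP_10f644_co.Lower

open Finset

/-- Every member of `F` is a clique of `G` on at least two vertices. -/
def Cliques {n : ℕ} (G : SimpleGraph (Fin n)) (F : Finset (Finset (Fin n))) : Prop :=
  ∀ C ∈ F, G.IsClique (C : Set (Fin n)) ∧ 2 ≤ C.card

/-- Edge clique cover number. -/
noncomputable def cc {n : ℕ} (G : SimpleGraph (Fin n)) : ℕ :=
  sInf {k | ∃ F : Finset (Finset (Fin n)), Cliques G F ∧
    (∀ u v, G.Adj u v → ∃ C, C ∈ F ∧ u ∈ C ∧ v ∈ C) ∧ F.card = k}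

/-- Clique partition number. -/
noncomputable def cp {n : ℕ} (G : SimpleGraph (Fin n)) : ℕ :=
  sInf {k | ∃ F : Finset (Finset (Fin n)), Cliques G F ∧
    (∀ u v, G.Adj u v → ∃! C, C ∈ F ∧ u ∈ C ∧ v ∈ C) ∧ F.card = k}

lemma cp_spec {n : ℕ} (G : SimpleGraph (Fin n)) : ∃ F : Finset (Finset (Fin n)), Cliques G F ∧
    (∀ u v, G.Adj u v → ∃! C, C ∈ F ∧ u ∈ C ∧ v ∈ C) ∧ F.card = cp G := by
  classical
  apply Nat.sInf_mem (s := {k | ∃ F : Finset (Finset (Fin n)), Cliques G F ∧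
    (∀ u v, G.Adj u v → ∃! C, C ∈ F ∧ u ∈ C ∧ v ∈ C) ∧ F.card = k})
  refine ⟨_, univ.filter (fun C : Finset (Fin n) => G.IsClique (C : Set (Fin n)) ∧ C.card = 2),
    ?_, ?_, rfl⟩
  · intro C hC
    simp only [mem_filter, mem_univ, true_and] at hC
    exact ⟨hC.1, hC.2.ge⟩
  · intro u v huv
    refine ⟨{u, v}, ⟨?_, by simp, by simp⟩, ?_⟩
    · simp only [mem_filter, mem_univ, true_and]
      refine ⟨?_, card_pair huv.ne⟩
      simpa using fun _ => huv
    · rintro C ⟨hC, hu, hv⟩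
      simp only [mem_filter, mem_univ, true_and] at hC
      symm
      apply eq_of_subset_of_card_le
      · intro x hx
        simp only [mem_insert, mem_singleton] at hx
        rcases hx with rfl | rfl <;> assumption
      · rw [hC.2, card_pair huv.ne]

def om (i j : Fin 7) : ℤ :=
  if i.val < 3 then (if j.val < 3 then -1 else 1)
  else (if j.val < 3 then 1 else if i = j then -2 else 0)

def xx (i : Fin 7) : ℤ := if i.val < 3 then 1 else 0

def lab {t : ℕ} (u : Fin (7 * t)) : Fin 7 := (finProdFinEquiv.symm u).1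

def GG (t : ℕ) : SimpleGraph (Fin (7 * t)) where
  Adj u v := u ≠ v ∧ ((lab u).val < 3 ∨ (lab v).val < 3 ∨ lab u = lab v)
  symm := ⟨fun u v h => ⟨h.1.symm, by
    rcases h.2 with h | h | h
    · exact Or.inr (Or.inl h)
    · exact Or.inl h
    · exact Or.inr (Or.inr h.symm)⟩⟩
  loopless := ⟨fun u h => h.1 rfl⟩

def W {t : ℕ} (u v : Fin (7 * t)) : ℤ := if u = v then 0 else om (lab u) (lab v)

lemma sum_lab {t : ℕ} (f : Fin 7 → ℤ) : ∑ u : Fin (7 * t), f (lab u) = t * ∑ i, f i := by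
  rw [← Equiv.sum_comp finProdFinEquiv]
  simp only [lab, Equiv.symm_apply_apply]
  rw [Fintype.sum_prod_type]
  simp [mul_sum]

lemma sumW {t : ℕ} (C : Finset (Fin (7 * t))) :
    ∑ u ∈ C, ∑ v ∈ C, W u v = ∑ u ∈ C, ∑ v ∈ C, om (lab u) (lab v) - ∑ u ∈ C, om (lab u) (lab u) := by
  rw [← sum_sub_distrib]
  refine sum_congr rfl fun u hu => ?_
  have : ∀ v, W u v = om (lab u) (lab v) - if u = v then om (lab u) (lab u) else 0 := by
    intro v; unfold W; split_ifs with h
    · subst h; simp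
    · simp
  simp only [this, sum_sub_distrib, sum_ite_eq, hu, if_true]

lemma total (t : ℕ) : ∑ u : Fin (7 * t), ∑ v : Fin (7 * t), W u v = 7 * t ^ 2 + 11 * t := by
  rw [sumW]
  have h1 : ∀ u : Fin (7 * t), ∑ v : Fin (7 * t), om (lab u) (lab v) = t * ∑ j, om (lab u) j :=
    fun u => sum_lab (fun j => om (lab u) j)
  simp only [h1]
  rw [sum_lab (fun i => (t : ℤ) * ∑ j, om i j), sum_lab (fun i => om i i), ← mul_sum]
  have e1 : ∑ i, ∑ j, om i j = 7 := by decide
  have e2 : ∑ i, om i i = -11 := by decide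
  rw [e1, e2]; ring

lemma om_eq (i j : Fin 7) (h : i.val < 3 ∨ j.val < 3 ∨ i = j) :
    om i j = - (xx i * xx j) + xx i * (1 - xx j) + (1 - xx i) * xx j
      - 2 * ((1 - xx i) * (1 - xx j)) := by
  revert i j; decide

lemma om_diag (i : Fin 7) : om i i = - xx i - 2 * (1 - xx i) := by
  revert i; decide

lemma clique_le {t : ℕ} (C : Finset (Fin (7 * t))) (hC : (GG t).IsClique (C : Set _)) :
    ∑ u ∈ C, ∑ v ∈ C, W u v ≤ 2 := by
  rw [sumW]
  have h1 : ∀ u ∈ C, ∀ v ∈ C, om (lab u) (lab v) = - (xx (lab u) * xx (lab v))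
      + xx (lab u) * (1 - xx (lab v)) + (1 - xx (lab u)) * xx (lab v)
      - 2 * ((1 - xx (lab u)) * (1 - xx (lab v))) := by
    intro u hu v hv
    apply om_eq
    by_cases h : u = v
    · subst h; exact Or.inr (Or.inr rfl)
    · exact (hC hu hv h).2
  rw [sum_congr rfl (fun u hu => sum_congr rfl (h1 u hu))]
  simp only [om_diag]
  set s := ∑ u ∈ C, xx (lab u) with hs
  set r := ∑ u ∈ C, (1 - xx (lab u)) with hr
  have e1 : ∑ u ∈ C, ∑ v ∈ C, (- (xx (lab u) * xx (lab v))
      + xx (lab u) * (1 - xx (lab v)) + (1 - xx (lab u)) * xx (lab v)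
      - 2 * ((1 - xx (lab u)) * (1 - xx (lab v)))) = -(s * s) + s * r + r * s - 2 * (r * r) := by
    rw [hs, hr, sum_mul_sum, sum_mul_sum, sum_mul_sum, sum_mul_sum, mul_sum, ← sum_neg_distrib,
      ← sum_add_distrib, ← sum_add_distrib, ← sum_sub_distrib]
    refine sum_congr rfl fun u _ => ?_
    rw [mul_sum, ← sum_neg_distrib, ← sum_add_distrib, ← sum_add_distrib, ← sum_sub_distrib]
  have e2 : ∑ u ∈ C, (- xx (lab u) - 2 * (1 - xx (lab u))) = - s - 2 * r := by
    rw [hs, hr, sum_sub_distrib, sum_neg_distrib, mul_sum]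
  rw [e1, e2]
  have a1 : 0 ≤ (s - r) * (s - r - 1) := by
    rcases le_or_gt (s - r) 0 with h | h
    · exact mul_nonneg_of_nonpos_of_nonpos h (by omega)
    · exact mul_nonneg h.le (by omega)
  have a2 : 0 ≤ (r - 1) * (r - 2) := by
    rcases le_or_gt r 1 with h | h
    · exact mul_nonneg_of_nonpos_of_nonpos (by omega) (by omega)
    · exact mul_nonneg (by omega) (by omega)
  nlinarith

lemma cp_ge (t : ℕ) : 7 * (t : ℤ) ^ 2 + 11 * t ≤ 2 * cp (GG t) := by
  classical
  obtain ⟨F, hF, hu, hc⟩ := cp_spec (GG t)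
  rw [← total, ← hc]
  have h1 : ∀ u v : Fin (7 * t), W u v = ∑ C ∈ F, if u ∈ C ∧ v ∈ C then W u v else 0 := by
    intro u v
    by_cases h : (GG t).Adj u v
    · obtain ⟨C, ⟨hC, huC, hvC⟩, hun⟩ := hu u v h
      rw [sum_eq_single C]
      · simp [huC, hvC]
      · intro D hD hne
        rw [if_neg]
        intro h'
        exact hne (hun D ⟨hD, h'.1, h'.2⟩)
      · intro h'; exact absurd hC h'
    · have : W u v = 0 := by
        unfold W
        split_ifs with h'
        · rfl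
        · have h2 : ¬ ((lab u).val < 3 ∨ (lab v).val < 3 ∨ lab u = lab v) := fun h3 => h ⟨h', h3⟩
          push Not at h2
          unfold om
          rw [if_neg (by omega), if_neg (by omega), if_neg h2.2.2]
      simp [this]
  calc ∑ u : Fin (7 * t), ∑ v : Fin (7 * t), W u v
      = ∑ u : Fin (7 * t), ∑ v : Fin (7 * t), ∑ C ∈ F, if u ∈ C ∧ v ∈ C then W u v else 0 := by
        exact sum_congr rfl fun u _ => sum_congr rfl fun v _ => h1 u v
    _ = ∑ C ∈ F, ∑ u : Fin (7 * t), ∑ v : Fin (7 * t), if u ∈ C ∧ v ∈ C then W u v else 0 := by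
        rw [sum_congr rfl (fun u _ => sum_comm), sum_comm]
    _ = ∑ C ∈ F, ∑ u ∈ C, ∑ v ∈ C, W u v := by
        refine sum_congr rfl fun C _ => ?_
        simp only [ite_and]
        rw [← sum_filter_add_sum_filter_not univ (· ∈ C)]
        have z : ∑ u ∈ univ.filter (fun u => ¬ u ∈ C), ∑ v : Fin (7 * t),
            (if u ∈ C then if v ∈ C then W u v else 0 else 0) = 0 := by
          refine sum_eq_zero fun u hu => ?_
          simp only [mem_filter] at hu
          simp [hu.2]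
        rw [z, add_zero]
        have : univ.filter (· ∈ C) = C := by ext; simp
        rw [this]
        refine sum_congr rfl fun u hu => ?_
        simp [hu]
    _ ≤ ∑ _C ∈ F, (2 : ℤ) := sum_le_sum fun C hC => clique_le C (hF C hC).1
    _ = 2 * F.card := by simp [mul_comm]

def pt {t : ℕ} (ht : 0 < t) (i : Fin 7) : Fin (7 * t) := finProdFinEquiv (i, ⟨0, ht⟩)

lemma lab_pt {t : ℕ} (ht : 0 < t) (i : Fin 7) : lab (pt ht i) = i := by
  simp [lab, pt]

lemma pt_ne {t : ℕ} (ht : 0 < t) : pt ht 0 ≠ pt ht 1 := by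
  intro h
  have := congrArg lab h
  rw [lab_pt, lab_pt] at this
  exact absurd this (by decide)

lemma adj01 {t : ℕ} (ht : 0 < t) : (GG t).Adj (pt ht 0) (pt ht 1) :=
  ⟨pt_ne ht, Or.inl (by rw [lab_pt]; decide)⟩

lemma cc_bounds {t : ℕ} (ht : 0 < t) : 1 ≤ cc (GG t) ∧ cc (GG t) ≤ 4 := by
  classical
  let Q : Fin 4 → Finset (Fin (7 * t)) := fun i =>
    univ.filter (fun u => (lab u).val < 3 ∨ (lab u).val = 3 + i.val)
  have hm : (univ.image Q).card ∈ {k | ∃ F : Finset (Finset (Fin (7 * t))), Cliques (GG t) F ∧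
      (∀ u v, (GG t).Adj u v → ∃ C, C ∈ F ∧ u ∈ C ∧ v ∈ C) ∧ F.card = k} := by
    refine ⟨_, ?_, ?_, rfl⟩
    · intro C hC
      obtain ⟨i, -, rfl⟩ := mem_image.1 hC
      constructor
      · intro u hu v hv hne
        simp only [Q, coe_filter, mem_univ, true_and, Set.mem_ofPred_eq] at hu hv
        refine ⟨hne, ?_⟩
        rcases hu with hu | hu
        · exact Or.inl hu
        · rcases hv with hv | hv
          · exact Or.inr (Or.inl hv)
          · exact Or.inr (Or.inr (Fin.ext (by omega)))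
      · rw [← card_pair (pt_ne ht)]
        apply card_le_card
        intro x hx
        simp only [mem_insert, mem_singleton] at hx
        rcases hx with rfl | rfl <;> simp [Q, lab_pt]
    · intro u v h
      have hu := (lab u).isLt
      have hv := (lab v).isLt
      by_cases h1 : (lab u).val < 3
      · refine ⟨Q ⟨(lab v).val - 3, by omega⟩, mem_image_of_mem _ (mem_univ _), ?_, ?_⟩
        · simp [Q, h1]
        · simp only [Q, mem_filter, mem_univ, true_and]; omega
      · refine ⟨Q ⟨(lab u).val - 3, by omega⟩, mem_image_of_mem _ (mem_univ _), ?_, ?_⟩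
        · simp only [Q, mem_filter, mem_univ, true_and]; omega
        · simp only [Q, mem_filter, mem_univ, true_and]
          rcases h.2 with h2 | h2 | h2
          · omega
          · omega
          · have := congrArg Fin.val h2; omega
  constructor
  · obtain ⟨F, -, hF, hc⟩ := Nat.sInf_mem ⟨_, hm⟩
    obtain ⟨C, hC, -⟩ := hF _ _ (adj01 ht)
    unfold cc
    rw [← hc]
    exact card_pos.2 ⟨C, hC⟩
  · exact (Nat.sInf_le hm).trans (card_image_le.trans (by simp))

theorem result : ∀ N : ℕ, ∃ n, N ≤ n ∧ ∃ G : SimpleGraph (Fin n), (∃ u v, G.Adj u v) ∧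
    (1 / 56 : ℝ) * (n : ℝ) ^ 2 < (cp G : ℝ) / (cc G : ℝ) := by
  intro N
  have ht : 0 < N + 1 := Nat.succ_pos N
  refine ⟨7 * (N + 1), by omega, GG (N + 1), ⟨_, _, adj01 ht⟩, ?_⟩
  obtain ⟨h1, h4⟩ := cc_bounds ht
  have h2 := cp_ge (N + 1)
  have h1' : (1 : ℝ) ≤ cc (GG (N + 1)) := by exact_mod_cast h1
  have h4' : (cc (GG (N + 1)) : ℝ) ≤ 4 := by exact_mod_cast h4
  have h2' : 7 * ((N + 1 : ℕ) : ℝ) ^ 2 + 11 * ((N + 1 : ℕ) : ℝ) ≤ 2 * cp (GG (N + 1)) := by
    exact_mod_cast h2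
  rw [lt_div_iff₀ (by linarith)]
  have hp : (0 : ℝ) < ((N + 1 : ℕ) : ℝ) := by exact_mod_cast ht
  have e : ((7 * (N + 1) : ℕ) : ℝ) = 7 * ((N + 1 : ℕ) : ℝ) := by push_cast; ring
  rw [e]
  nlinarith [sq_nonneg ((N + 1 : ℕ) : ℝ)]

end Pool.Agent.Results.MP_10f644_co.Lower
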